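import Pool.Agent.helper45.BR.Spec

set_option autoImplicit false

open Complex Metric Set Filter Topology MeasureTheory MPS Pool.Agent.helper98.ILF
  Pool.Agent.helper16.Multibrot

noncomputable section

namespace BR

theorem LGH (hP : PRM_stmt) : LGH_stmt := by
  intro U h hO hC hN hd hne
  have hdd : DifferentiableOn ℂ (fun z => deriv h z / h z) U :=
    (hd.deriv hO).fun_div hd hne
  obtain ⟨H, hH⟩ := hP U (fun z => deriv h z / h z) hO hC hN hdd
  have hder : ∀ z ∈ U, HasDerivAt (fun z => h z * Complex.exp (-H z)) 0 z := by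
    intro z hz
    have h1 : HasDerivAt h (deriv h z) z := (hd.differentiableAt (hO.mem_nhds hz)).hasDerivAt
    have h2 : HasDerivAt (fun z => Complex.exp (-H z)) (Complex.exp (-H z) * (-(deriv h z / h z))) z :=
      (hH z hz).fun_neg.cexp
    have h3 := h1.fun_mul h2
    have h4 : deriv h z * Complex.exp (-H z) + h z * (Complex.exp (-H z) * (-(deriv h z / h z))) = 0 := by
      have h5 := hne z hz
      field_simp
      ring
    rw [h4] at h3
    exact h3
  obtain ⟨z₀, hz₀⟩ := hC.nonempty
  have hconst : ∀ z ∈ U, h z * Complex.exp (-H z) = h z₀ * Complex.exp (-H z₀) := by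
    intro z hz
    exact hO.is_const_of_deriv_eq_zero hC.isPreconnected
      (fun x hx => (hder x hx).differentiableAt.differentiableWithinAt)
      (fun x hx => (hder x hx).deriv) hz hz₀
  have hC0 : h z₀ * Complex.exp (-H z₀) ≠ 0 := mul_ne_zero (hne z₀ hz₀) (Complex.exp_ne_zero _)
  refine ⟨fun z => H z + Complex.log (h z₀ * Complex.exp (-H z₀)), ?_, ?_⟩
  · intro z hz
    exact ((hH z hz).differentiableAt.add_const _).differentiableWithinAt
  · intro z hz
    rw [Complex.exp_add, Complex.exp_log hC0, ← hconst z hz]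
    rw [mul_left_comm, ← Complex.exp_add, add_neg_cancel, Complex.exp_zero, mul_one]

end BR
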