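import Pool.Agent.helper45.BR.Spec

set_option autoImplicit false

open Complex Metric Set Filter Topology MeasureTheory MPS Pool.Agent.helper98.ILF
  Pool.Agent.helper16.Multibrot

noncomputable section

namespace BR

theorem MOD_hd (n : ℕ) (c x : ℂ) : HasDerivAt (fc n c) (fd n x) x := by
  have h1 : HasDerivAt (fun w : ℂ => w ^ n + c) ((n : ℂ) * x ^ (n - 1)) x :=
    (hasDerivAt_pow n x).add_const c
  exact h1

theorem MOD_dit (n j : ℕ) (c : ℂ) : Differentiable ℂ ((fc n c)^[j]) := by
  induction j with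
  | zero => exact differentiable_id
  | succ j ih =>
    rw [Function.iterate_succ']
    exact Differentiable.comp (fun x => (MOD_hd n c x).differentiableAt) ih

theorem MOD_succ (n j : ℕ) (c z : ℂ) :
    mlt n (j + 1) c z = fd n ((fc n c)^[j] z) * mlt n j c z := by
  have h1 : HasDerivAt ((fc n c)^[j]) (mlt n j c z) z := (MOD_dit n j c z).hasDerivAt
  have h2 : HasDerivAt (fc n c ∘ (fc n c)^[j]) (fd n ((fc n c)^[j] z) * mlt n j c z) z :=
    HasDerivAt.comp z (MOD_hd n c _) h1
  rw [← Function.iterate_succ'] at h2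
  exact h2.deriv

theorem MOD_ne (n c z) (N : ℕ) (h : mlt n N c z ≠ 0) : ∀ j ≤ N, mlt n j c z ≠ 0 := by
  induction N with
  | zero =>
    intro j hj
    rw [Nat.le_zero.1 hj]
    exact h
  | succ N ih =>
    intro j hj
    rcases Nat.of_le_succ hj with h1 | h1
    · rw [ MOD_succ] at h
      exact ih (right_ne_zero_of_mul h) j h1
    · rw [h1]
      exact h

theorem MOD_step (n : ℕ) (c : ℂ) (w : ℂ → ℂ) (hw : DifferentiableAt ℂ w c) (N : ℕ) :
    (∀ j ≤ N, mlt n j c (w c) ≠ 0) → ∀ j ≤ N,
    HasDerivAt (fun c' => (fc n c')^[j] (w c'))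
      (mlt n j c (w c) * (deriv w c + ∑ i ∈ Finset.range j, 1 / mlt n (i + 1) c (w c))) c := by
  intro hne j
  induction j with
  | zero =>
    intro _
    have h1 : mlt n 0 c (w c) = 1 := by
      simp [mlt]
    rw [h1]
    simpa using hw.hasDerivAt
  | succ j ih =>
    intro hj
    have h1 := ih (by omega)
    have h2 : (fun c' => (fc n c')^[j + 1] (w c')) = fun c' => ((fc n c')^[j] (w c')) ^ n + c' := by
      funext c'
      rw [Function.iterate_succ_apply']
      rfl
    rw [h2]
    have h3 := (h1.fun_pow n).add (hasDerivAt_id c)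
    have h4 : (n : ℂ) * ((fc n c)^[j] (w c)) ^ (n - 1) *
        (mlt n j c (w c) * (deriv w c + ∑ i ∈ Finset.range j, 1 / mlt n (i + 1) c (w c))) + 1 =
        mlt n (j + 1) c (w c) * (deriv w c + ∑ i ∈ Finset.range (j + 1), 1 / mlt n (i + 1) c (w c)) := by
      have h5 : mlt n (j + 1) c (w c) ≠ 0 := hne (j + 1) hj
      rw [Finset.sum_range_succ, mul_add (mlt n (j + 1) c (w c)), mul_add (mlt n (j + 1) c (w c)),
        mul_one_div, div_self h5, MOD_succ]
      simp only [fd]
      ring
    rw [← h4]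
    exact h3

theorem MOD : MOD_stmt := by
  intro n N c r w hn hr hd hcon hne
  have hw : DifferentiableAt ℂ w c := hd.differentiableAt (isOpen_ball.mem_nhds (mem_ball_self hr))
  have h1 := MOD_step n c w hw N (MOD_ne n c (w c) N hne) N le_rfl
  have h2 : HasDerivAt (fun c' => (fc n c')^[N] (w c')) 0 c := by
    have h3 : (fun c' => (fc n c')^[N] (w c')) =ᶠ[𝓝 c] fun _ => (fc n c)^[N] (w c) := by
      filter_upwards [isOpen_ball.mem_nhds (mem_ball_self hr)] with c' hc'
      exact hcon c' hc'
    exact (hasDerivAt_const c _).congr_of_eventuallyEq h3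
  have h3 := h1.unique h2
  rcases mul_eq_zero.1 h3 with h4 | h4
  · exact absurd h4 hne
  · rw [SN]
    exact eq_neg_of_add_eq_zero_left h4

end BR
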